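import Pool.Agent.H8.MC.FTargets

/-!
# There is no labelled cylinder
-/

set_option autoImplicit false

namespace Pool.Agent.H60.MF

open Pool.Agent.H8.MC Pool.Agent.H69.VR Pool.Agent.H8.VR Pool.Agent.H69.Sp

/-- the number given by the digits -/
def vl {V : Type} (hb : V → Bool) (x : ℕ → V) : ℕ → ℕ
  | 0 => 0
  | k + 1 => vl hb x k + (hb (x k)).toNat * 2 ^ k

theorem vl_lt {V : Type} (hb : V → Bool) (x : ℕ → V) (k : ℕ) : vl hb x k < 2 ^ k := by
  induction k with
  | zero => simp [vl]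
  | succ k ih =>
    have h1 : vl hb x (k + 1) = vl hb x k + (hb (x k)).toNat * 2 ^ k := rfl
    have h2 : (hb (x k)).toNat ≤ 1 := Bool.toNat_le _
    have h3 : (hb (x k)).toNat * 2 ^ k ≤ 1 * 2 ^ k := Nat.mul_le_mul_right _ h2
    rw [h1, pow_succ]
    omega

theorem pf_ROC : T_ROC := by
  classical
  intro V _ K E N Lf Rf hb hc h1 h2 h3 h4 h5 h6 h7 h8 h9 h10 h11 h12 x0 hx0 hL0
  obtain ⟨st, hst⟩ : ∃ st : V → V, ∀ x y, E x y → st x = y := by
    refine ⟨fun x => if h : ∃ y, E x y then h.choose else x, fun x y hxy => ?_⟩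
    have h : ∃ y, E x y := ⟨y, hxy⟩
    simp only [dif_pos h]
    exact h2 x _ _ h.choose_spec hxy
  have hstE : ∀ x, (∃ y, E x y) → E x (st x) := by
    rintro x ⟨y, hy⟩
    rw [hst x y hy]
    exact hy
  -- the row of the first element
  have hrow : ∀ i, (∀ j < i, ¬ Rf (st^[j] x0)) → st^[i] x0 ∈ K ∧
      ∀ j < i, E (st^[j] x0) (st^[j + 1] x0) := by
    intro i
    induction i with
    | zero =>
      intro _
      exact ⟨hx0, fun j hj => absurd hj (Nat.not_lt_zero j)⟩
    | succ i ih =>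
      intro h
      obtain ⟨ih1, ih2⟩ := ih fun j hj => h j (by omega)
      have h13 : E (st^[i] x0) (st^[i + 1] x0) := by
        rw [Function.iterate_succ_apply']
        exact hstE _ (h4 _ ih1 (h i (by omega)))
      refine ⟨(h1 _ _ h13 ih1).1, fun j hj => ?_⟩
      rcases Nat.lt_succ_iff_lt_or_eq.1 hj with h' | rfl
      · exact ih2 j h'
      · exact h13
  have hex : ∃ w, Rf (st^[w] x0) := by
    by_contra hcon
    push Not at hcon
    have hE : ∀ i, E (st^[i] x0) (st^[i + 1] x0) := fun i =>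
      (hrow (i + 1) fun j _ => hcon j).2 i (by omega)
    have hK : ∀ i, st^[i] x0 ∈ K := fun i => (hrow i fun j _ => hcon j).1
    have hback : ∀ i d, st^[i] x0 = st^[i + d] x0 → x0 = st^[d] x0 := by
      intro i d
      induction i with
      | zero =>
        intro h
        simpa using h
      | succ i ih =>
        intro h
        apply ih
        refine h3 _ _ _ (hE i) ?_
        have h14 := hE (i + d)
        have e : i + d + 1 = i + 1 + d := by ring
        rw [e, ← h] at h14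
        exact h14
    obtain ⟨i, j, hij, he⟩ := Finite.exists_ne_map_eq_of_infinite fun i : ℕ => st^[i] x0
    have key : ∀ i j, i < j → st^[i] x0 = st^[j] x0 → False := by
      intro i j hlt he
      obtain ⟨d, rfl⟩ := Nat.exists_eq_add_of_lt hlt
      have h15 := hback i (d + 1) he
      have h16 := (h1 _ _ (hE d) (hK d)).2.2
      rw [← h15] at h16
      exact h16 hL0
    rcases lt_or_gt_of_ne hij with h | h
    · exact key i j h he
    · exact key j i h he.symm
  obtain ⟨w, hw, hmin⟩ : ∃ w, Rf (st^[w] x0) ∧ ∀ j < w, ¬ Rf (st^[j] x0) :=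
    ⟨Nat.find hex, Nat.find_spec hex, fun j hj => Nat.find_min hex hj⟩
  -- the next row
  obtain ⟨Row, hRow⟩ : ∃ Row : (ℕ → V) → Prop, ∀ x, Row x ↔ Lf (x 0) ∧ (∀ i ≤ w, x i ∈ K) ∧
      (∀ i < w, E (x i) (x (i + 1))) ∧ Rf (x w) := ⟨_, fun _ => Iff.rfl⟩
  have hstep : ∀ x, Row x → ∃ z, Row z ∧ vl hb z (w + 1) = vl hb x (w + 1) + 1 := by
    intro x hx
    obtain ⟨r1, r2, r3, r4⟩ := (hRow x).1 hx
    obtain ⟨z0, hz0, hNz, hLz⟩ := h5 (x 0) (r2 0 (Nat.zero_le _)) r1
    have hz : ∀ i ≤ w, N (x i) (st^[i] z0) ∧ ∀ j < i, E (st^[j] z0) (st^[j + 1] z0) := by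
      intro i
      induction i with
      | zero => exact fun _ => ⟨hNz, fun j hj => absurd hj (Nat.not_lt_zero j)⟩
      | succ i ih =>
        intro hi
        obtain ⟨ih1, ih2⟩ := ih (by omega)
        obtain ⟨y, hy1, hy2⟩ := h8 _ _ _ (r3 i (by omega)) ih1
        have h13 : st^[i + 1] z0 = y := by
          rw [Function.iterate_succ_apply']
          exact hst _ _ hy1
        refine ⟨by rw [h13]; exact hy2, fun j hj => ?_⟩
        rcases Nat.lt_succ_iff_lt_or_eq.1 hj with h' | rfl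
        · exact ih2 j h'
        · rw [h13]
          exact hy1
    refine ⟨fun i => st^[i] z0, (hRow _).2 ⟨hLz, fun i hi => (h6 _ _ (hz i hi).1 (r2 i hi)).1,
      fun i hi => (hz w le_rfl).2 i hi, (h6 _ _ (hz w le_rfl).1 (r2 w le_rfl)).2.1 r4⟩, ?_⟩
    have hcar : ∀ k ≤ w, vl hb (fun i => st^[i] z0) k + (hc (x k)).toNat * 2 ^ k =
        vl hb x k + 1 := by
      intro k
      induction k with
      | zero =>
        intro _
        rw [h11 (x 0) (r2 0 (Nat.zero_le _)) r1]
        rfl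
      | succ k ih =>
        intro hk
        have ih1 := ih (by omega)
        have h13 := h10 _ _ (hz k (by omega)).1
        have h14 := h9 _ _ (r3 k (by omega))
        have e1 : vl hb (fun i => st^[i] z0) (k + 1) =
          vl hb (fun i => st^[i] z0) k + (hb (st^[k] z0)).toNat * 2 ^ k := rfl
        have e2 : vl hb x (k + 1) = vl hb x k + (hb (x k)).toNat * 2 ^ k := rfl
        rw [e1, e2, h14, h13, pow_succ]
        cases hbx : hb (x k) <;> cases hcx : hc (x k) <;> rw [hcx] at ih1 <;> simp at ih1 ⊢ <;>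
          omega
    have h15 := hcar w le_rfl
    have h13 := h10 _ _ (hz w le_rfl).1
    have h16 := h12 _ (r2 w le_rfl) r4
    have e1 : vl hb (fun i => st^[i] z0) (w + 1) =
      vl hb (fun i => st^[i] z0) w + (hb (st^[w] z0)).toNat * 2 ^ w := rfl
    have e2 : vl hb x (w + 1) = vl hb x w + (hb (x w)).toNat * 2 ^ w := rfl
    rw [e1, e2, h13]
    cases hbx : hb (x w) <;> cases hcx : hc (x w) <;> rw [hcx] at h15 <;> simp at h15 ⊢ <;>
      first | omega | exact absurd ⟨hbx, hcx⟩ h16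
  have hit : ∀ m, ∃ x, Row x ∧ m ≤ vl hb x (w + 1) := by
    intro m
    induction m with
    | zero =>
      refine ⟨fun i => st^[i] x0, (hRow _).2 ⟨hL0, fun i hi => ?_, fun i hi => ?_, hw⟩,
        Nat.zero_le _⟩
      · exact (hrow i fun j hj => hmin j (lt_of_lt_of_le hj hi)).1
      · exact (hrow w hmin).2 i hi
    | succ m ih =>
      obtain ⟨x, hx, hm⟩ := ih
      obtain ⟨z, hz, he⟩ := hstep x hx
      exact ⟨z, hz, by omega⟩
  obtain ⟨x, -, hx⟩ := hit (2 ^ (w + 1))
  exact absurd (vl_lt hb x (w + 1)) (by omega)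

end Pool.Agent.H60.MF
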