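import Pool.Agent.H8.MC.GTargets
import Pool.Agent.H8.MF.CmL

/-!
# (XSE) every spectrum is given by a first-order spectrum over each class with exact grid models
-/

set_option autoImplicit false

namespace Pool.Agent.H60.MF

open Pool.Agent.H8.MC Pool.Agent.H69.VR Pool.Agent.H8.VR Pool.Agent.H69.Sp
open Pool.Agent.H8.PL (GridF Z_SQ)

instance : Finite Kl :=
  Finite.of_injective (fun k : Kl => (k.hb, k.hc, k.vb, k.vc, k.q, k.a, k.d, k.s)) (by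
    rintro ⟨⟩ ⟨⟩ h
    simp only [Prod.mk.injEq] at h
    obtain ⟨h1, h2, h3, h4, h5, h6, h7, h8⟩ := h
    subst h1 h2 h3 h4 h5 h6 h7 h8
    rfl)

private theorem xse_pos {S : Set ℕ} (hS : IsSpectrum S) {m : ℕ} (hm : m ∈ S) : 0 < m := by
  obtain ⟨L, _, _, φ, rfl⟩ := hS
  exact hm.1

/-- from the rules of connectedness to the first-order rules -/
theorem xse_rule (hBDD : T_BDD) (hCRZ : T_CRZ) {s K : ℕ} {Q V : Type} [Finite V]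
    {U : Bool → Bool → Bool → Bool → Q → Prop} {Hh Vv : Q → Q → Prop} {G : SimpleGraph V}
    {π : V → Fin K × Fin K} {co : V → Option (ZMod 3 × ZMod 3)} {rp : V → Prop} {lb : V → Lc}
    {ti : V → Q} (hs : ∀ p, {v | π v = p}.ncard = s) (hc : CRule U Hh Vv G co rp lb ti)
    (hcm : ∀ u v, Cm G co u v ↔ π u = π v) (hrp : ∀ p, ∃! x, rp x ∧ π x = p) :
    ERule s U Hh Vv G co rp lb ti := by
  have hset : ∀ u, {v | Cm G co u v} = {v | π v = π u} := by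
    intro u
    ext v
    rw [Set.mem_setOf_eq, Set.mem_setOf_eq, hcm]
    exact eq_comm
  have hbd : ∀ u v, CmB G co (s + 1) u v → CmB G co s u v :=
    hBDD V G co s fun u => by rw [hset, hs]
  have hiff := Pool.Agent.H8.MF.cm_iff hbd
  obtain ⟨zE, zN, uc⟩ := hCRZ Q U Hh Vv V G co rp lb ti hc
  refine ⟨⟨hbd, hc.eE, hc.eN, hc.fE, hc.iE, hc.fN, hc.iN, hc.xE, hc.xN, zE, zN, hc.cor, uc, hc.sq,
    hc.un, hc.hh, hc.vv⟩, ?_, ?_, ?_⟩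
  · intro v
    obtain ⟨x, ⟨hx1, hx2⟩, -⟩ := hrp (π v)
    exact ⟨x, hx1, (hiff x v).1 ((hcm x v).2 hx2)⟩
  · intro x y hx hy hxy
    have h1 := (hcm x y).1 ((hiff x y).2 hxy)
    exact (hrp (π y)).unique ⟨hx, h1⟩ ⟨hy, rfl⟩
  · intro x _
    have h1 : {v | CmB G co s x v} = {v | π v = π x} := by
      rw [← hset]
      ext v
      exact (hiff x v).symm
    rw [h1, hs]

/-- (XSE) -/
theorem pf_XSE (hSQ : Z_SQ) (hERD : T_ERD) (hNUM : T_NUM) (hWMO : T_WMO) (hCNN : T_CNN)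
    (hAUG : T_AUG) (hWTX : T_WTX) (hBDD : T_BDD) (hCRZ : T_CRZ) : T_XSE := by
  intro S hS
  obtain ⟨r, Q, U, Hh, Vv, hr, hQ, hsq⟩ := hSQ S hS
  refine ⟨r, hr, fun s hs => ?_⟩
  obtain ⟨Ψ, hΨ, hΨ2⟩ := hERD s (Q × Kl) (U2 U) (H2 Hh) (V2 Vv)
  refine ⟨Ψ, hΨ, fun C hC n => ⟨?_, ?_⟩⟩
  · rintro ⟨hn, P, G, hCG, hsat⟩
    obtain ⟨co, rp, lb, ti, hrule⟩ := (hΨ2 n G hn).1 ⟨P, hsat⟩
    have hcr := hCNN s Q U Hh Vv (Fin n) G co rp lb ti hrule.fr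
    obtain ⟨W, H, hW, hH, hWH, t, ht1, ht2, ht3⟩ := hWMO _ _ _ _ (Fin n) G co rp lb ti hcr
    obtain ⟨m, hm, rfl, rfl⟩ := (hsq W H hW hH).1
      ⟨fun x y => (t x y).1, fun x hx y hy => (ht1 x hx y hy).1,
        fun x y hx hy => (ht2 x y hx hy).1, fun x y hx hy => (ht3 x y hx hy).1⟩
    refine ⟨m, hm, ?_⟩
    have h1 := hNUM s _ _ _ _ (Fin n) G co rp lb ti hrule
    rw [Nat.card_eq_fintype_card, Fintype.card_fin] at h1
    rw [h1, hWH, two_mul, pow_add]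
  · rintro ⟨m, hm, rfl⟩
    have hm0 : 0 < m := xse_pos hS hm
    have hK : 0 < m ^ r := pow_pos hm0 r
    have e : m ^ (2 * r) = (m ^ r) ^ 2 := by rw [← pow_mul, mul_comm]
    rw [e]
    obtain ⟨G, π, hCG, hπ, hcard⟩ := hC (m ^ r) hK
    obtain ⟨t, ht1, ht2, ht3⟩ := (hsq _ _ hK hK).2 ⟨m, hm, rfl, rfl⟩
    obtain ⟨k, hk1, hk2, hk3⟩ := hAUG (m ^ r) hK
    obtain ⟨co, rp, lb, ti, hrule, hcm, hrp⟩ := hWTX (Q × Kl) (U2 U) (H2 Hh) (V2 Vv) (m ^ r) _ G π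
      hK hπ ⟨fun x y => (t x y, k x y), fun x hx y hy => ⟨ht1 x hx y hy, hk1 x hx y hy⟩,
        fun x y hx hy => ⟨ht2 x y hx hy, hk2 x y hx hy⟩,
        fun x y hx hy => ⟨ht3 x y hx hy, hk3 x y hx hy⟩⟩
    have hn : 0 < s * (m ^ r) ^ 2 := Nat.mul_pos hs (pow_pos hK 2)
    obtain ⟨P, hsat⟩ := (hΨ2 _ G hn).2
      ⟨co, rp, lb, ti, xse_rule hBDD hCRZ hcard hrule hcm hrp⟩
    exact ⟨hn, P, G, hCG, hsat⟩

end Pool.Agent.H60.MF
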